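import Mathlib
import Pool.Agent.H9.Pyr

set_option autoImplicit false

namespace Pool.Agent.Results.MP_41a254_co.Hidden

abbrev E := EuclideanSpace ℝ (Fin 3)

/-- Compact convex set with nonempty interior. -/
def IsBody (K : Set E) : Prop := IsCompact K ∧ Convex ℝ K ∧ (interior K).Nonempty

/-- For any three distinct members, a plane strictly separates the union of two from the third. -/
def Separable {n : ℕ} (C : Fin n → Set E) : Prop :=
  ∀ i j l, i ≠ j → i ≠ l → j ≠ l → ∃ (u : E) (t : ℝ), u ≠ 0 ∧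
    (∀ x ∈ C i ∪ C j, inner ℝ u x < t) ∧ ∀ y ∈ C l, t < inner ℝ u y

/-- The plane `inner u x = t` meets `K` and `K` lies on one side of it. -/
def Supports (u : E) (t : ℝ) (K : Set E) : Prop :=
  (∃ x ∈ K, inner ℝ u x = t) ∧ ((∀ x ∈ K, inner ℝ u x ≤ t) ∨ (∀ x ∈ K, t ≤ inner ℝ u x))

/-- No four members have a common supporting plane. -/
def Nondegenerate {n : ℕ} (C : Fin n → Set E) : Prop :=
  ∀ F : Finset (Fin n), F.card = 4 → ¬ ∃ (u : E) (t : ℝ), u ≠ 0 ∧ ∀ i ∈ F, Supports u t (C i)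

/-- For each member of the subfamily `F`, the boundary of the hull of the union contains a
nonempty relatively open piece of the boundary of that member. -/
def ConvexPos {n : ℕ} (C : Fin n → Set E) (F : Finset (Fin n)) : Prop :=
  ∀ i ∈ F, ∃ O : Set E, IsOpen O ∧ (O ∩ frontier (C i)).Nonempty ∧
    O ∩ frontier (C i) ⊆ frontier (convexHull ℝ (⋃ j ∈ F, C j))

theorem result (k n : ℕ) (h5 : 5 ≤ n) (hk : k < n) :
    ∃ C : Fin n → Set E, Function.Injective C ∧ (∀ i, IsBody (C i)) ∧ Separable C ∧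
      Nondegenerate C ∧ (∀ F : Finset (Fin n), F.card = k → ConvexPos C F) ∧
      ¬ ConvexPos C Finset.univ := by
  obtain ⟨C, h1, h2, h3, h4, i, h6⟩ := Pool.Agent.H9.Pyr.main n h5
  refine ⟨C, fun a b e => ?_, h1, fun a b c _ x y => ?_, fun F hF ⟨u, t, u0, h⟩ => h3 F hF u u0 t h,
    fun F hF => h4 F (hF ▸ hk), fun h => h6 (h i (Finset.mem_univ i))⟩
  · by_contra hne
    obtain ⟨u, -, t, p, q⟩ := h2 a a b hne hne
    obtain ⟨x, hx⟩ := (h1 a).2.2
    have hx := interior_subset hx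
    exact lt_asymm (p x (Or.inl hx)) (q x (e ▸ hx))
  · obtain ⟨u, u0, t, p⟩ := h2 a b c x y
    exact ⟨u, t, u0, p⟩

end Pool.Agent.Results.MP_41a254_co.Hidden
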